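import Pool.Agent.TH206.WLP.Phi

/-!
Multiplication by a variable and the Hilbert functions in two consecutive numbers of variables.
-/

set_option autoImplicit false

namespace Pool.Agent.TH206.WLP

open MvPolynomial Module Pool.Agent.TH206.Fro

variable {K : Type} [Field K] {n r : ℕ}

/-- the degree `k` part of the ideal generated by the forms `f i` -/
noncomputable abbrev part (f : Fin r → MvPolynomial (Fin n) K) (k : ℕ) :
    Submodule K (MvPolynomial (Fin n) K) :=
  Submodule.restrictScalars K (Ideal.span (Set.range f)) ⊓ homogeneousSubmodule (Fin n) K k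

instance (k : ℕ) : FiniteDimensional K ↥(homogeneousSubmodule (Fin n) K k) :=
  Module.Finite.iff_fg.2 (MvPolynomial.homogeneousSubmodule_fg _ _ k)

instance (f : Fin r → MvPolynomial (Fin n) K) (k : ℕ) : FiniteDimensional K ↥(part f k) :=
  Submodule.finiteDimensional_of_le (inf_le_right : part f k ≤ _)

/-- the forms of degree `k` whose multiple by `x_0` is in the ideal -/
noncomputable def Jk (f : Fin r → MvPolynomial (Fin (n + 1)) K) (k : ℕ) :
    Submodule K (MvPolynomial (Fin (n + 1)) K) :=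
  (Submodule.restrictScalars K (Ideal.span (Set.range f))).comap (LinearMap.mulLeft K (X 0)) ⊓
    homogeneousSubmodule (Fin (n + 1)) K k

lemma mem_Jk {f : Fin r → MvPolynomial (Fin (n + 1)) K} {k : ℕ}
    {g : MvPolynomial (Fin (n + 1)) K} :
    g ∈ Jk f k ↔ X 0 * g ∈ Ideal.span (Set.range f) ∧
      g ∈ homogeneousSubmodule (Fin (n + 1)) K k := Iff.rfl

instance (f : Fin r → MvPolynomial (Fin (n + 1)) K) (k : ℕ) : FiniteDimensional K ↥(Jk f k) :=
  Submodule.finiteDimensional_of_le (inf_le_right : Jk f k ≤ _)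

lemma X_mul_mem {k : ℕ} {g : MvPolynomial (Fin (n + 1)) K}
    (hg : g ∈ homogeneousSubmodule (Fin (n + 1)) K k) :
    X 0 * g ∈ homogeneousSubmodule (Fin (n + 1)) K (k + 1) := by
  have := (isHomogeneous_X K (0 : Fin (n + 1))).mul (show g.IsHomogeneous k from hg)
  rw [Nat.add_comm 1 k] at this
  exact this

lemma part_lift {d : Fin r → ℕ} {f : Fin r → MvPolynomial (Fin (n + 1)) K}
    (hf : ∀ i, (f i).IsHomogeneous (d i)) {j : ℕ} {b : MvPolynomial (Fin n) K}
    (hb : b ∈ part (fun i => phi (f i)) j) : ∃ a ∈ part f j, phi a = b := by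
  obtain ⟨hb1, hb2⟩ := hb
  have h1 : b ∈ Ideal.map (phi (K := K) (n := n)) (Ideal.span (Set.range f)) := by
    rw [map_ideal]; exact hb1
  rw [Ideal.mem_map_iff_of_surjective _ phi_surj] at h1
  obtain ⟨a, ha, hab⟩ := h1
  refine ⟨homogeneousComponent j a, ⟨hc_ideal hf ha j, hc_mem _ _⟩, ?_⟩
  rw [phi_hc, hab]
  exact hc_self hb2

theorem dim_part {d : Fin r → ℕ} {f : Fin r → MvPolynomial (Fin (n + 1)) K}
    (hf : ∀ i, (f i).IsHomogeneous (d i)) (k : ℕ) :
    finrank K ↥(part f (k + 1)) =
      finrank K ↥(part (fun i => phi (f i)) (k + 1)) + finrank K ↥(Jk f k) := by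
  let L : ↥(part f (k + 1)) →ₗ[K] MvPolynomial (Fin n) K :=
    (phi (K := K) (n := n)).toLinearMap.domRestrict (part f (k + 1))
  have hL : ∀ a, L a = phi a.1 := fun a => rfl
  have h1 := LinearMap.finrank_range_add_finrank_ker L
  have h2 : LinearMap.range L = part (fun i => phi (f i)) (k + 1) := by
    ext b
    constructor
    · rintro ⟨a, rfl⟩
      rw [hL]
      refine ⟨?_, phi_mem a.2.2⟩
      have := Ideal.mem_map_of_mem (phi (K := K) (n := n)) a.2.1
      rw [map_ideal] at this
      exact this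
    · intro hb
      obtain ⟨a, ha, hab⟩ := part_lift hf hb
      exact ⟨⟨a, ha⟩, hab⟩
  let M : ↥(Jk f k) →ₗ[K] ↥(part f (k + 1)) :=
    LinearMap.codRestrict (part f (k + 1)) ((LinearMap.mulLeft K (X 0)).domRestrict (Jk f k))
      (fun g => ⟨(mem_Jk.1 g.2).1, X_mul_mem (mem_Jk.1 g.2).2⟩)
  have hM : ∀ g, (M g).1 = X 0 * g.1 := fun g => rfl
  have hMi : Function.Injective M := by
    intro g g' h
    have h3 : X 0 * g.1 = X 0 * g'.1 := by rw [← hM, ← hM, h]
    exact Subtype.ext (mul_left_cancel₀ (X_ne_zero 0) h3)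
  have h4 : LinearMap.ker L = LinearMap.range M := by
    ext a
    rw [LinearMap.mem_ker, LinearMap.mem_range]
    constructor
    · intro ha
      rw [hL] at ha
      obtain ⟨g, hg, hag⟩ := phi_ker a.2.2 ha
      have h5 : X 0 * g ∈ Ideal.span (Set.range f) := by
        rw [← hag]; exact a.2.1
      refine ⟨⟨g, mem_Jk.2 ⟨h5, hg⟩⟩, ?_⟩
      apply Subtype.ext
      exact hag.symm
    · rintro ⟨g, rfl⟩
      rw [hL, hM, map_mul, phi_X_zero, zero_mul]
  rw [← h1, h2, h4, LinearMap.finrank_range_of_inj hMi]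

lemma dim_hom (k : ℕ) : finrank K ↥(homogeneousSubmodule (Fin (n + 1)) K (k + 1)) =
    finrank K ↥(homogeneousSubmodule (Fin (n + 1)) K k) +
      finrank K ↥(homogeneousSubmodule (Fin n) K (k + 1)) := by
  rw [dim_thm, dim_thm, dim_thm, card_Mon, card_Mon, card_Mon]
  have e1 : n + 1 + (k + 1) - 1 = n + k + 1 := by omega
  have e2 : n + 1 + k - 1 = n + k := by omega
  have e3 : n + (k + 1) - 1 = n + k := by omega
  rw [e1, e2, e3, Nat.choose_succ_succ]

lemma part_le_Jk (f : Fin r → MvPolynomial (Fin (n + 1)) K) (k : ℕ) : part f k ≤ Jk f k :=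
  fun _ hg => mem_Jk.2 ⟨Ideal.mul_mem_left _ _ hg.1, hg.2⟩

/-- injectivity from the Hilbert functions -/
theorem inj_of {d : Fin r → ℕ} {f : Fin r → MvPolynomial (Fin (n + 1)) K}
    (hf : ∀ i, (f i).IsHomogeneous (d i)) (k : ℕ)
    (h : hilb f (k + 1) = hilb f k + hilb (fun i => phi (f i)) (k + 1)) :
    ∀ g ∈ homogeneousSubmodule (Fin (n + 1)) K k, X 0 * g ∈ Ideal.span (Set.range f) →
      g ∈ Ideal.span (Set.range f) := by
  have h1 := dim_part hf k
  have h2 := dim_hom (K := K) (n := n) k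
  have h3 : finrank K ↥(part f k) = finrank K ↥(Jk f k) := by
    unfold hilb at h
    change (finrank K ↥(homogeneousSubmodule (Fin (n + 1)) K (k + 1)) : ℤ) -
      (finrank K ↥(part f (k + 1)) : ℤ) = (finrank K ↥(homogeneousSubmodule (Fin (n + 1)) K k) : ℤ) -
      (finrank K ↥(part f k) : ℤ) + ((finrank K ↥(homogeneousSubmodule (Fin n) K (k + 1)) : ℤ) -
      (finrank K ↥(part (fun i => phi (f i)) (k + 1)) : ℤ)) at h
    omega
  have h4 := Submodule.eq_of_le_of_finrank_eq (part_le_Jk f k) h3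
  intro g hg hgI
  have h5 : g ∈ Jk f k := mem_Jk.2 ⟨hgI, hg⟩
  rw [← h4] at h5
  exact h5.1

/-- surjectivity if the quotient by `x_0` vanishes -/
theorem surj_of {d : Fin r → ℕ} {f : Fin r → MvPolynomial (Fin (n + 1)) K}
    (hf : ∀ i, (f i).IsHomogeneous (d i)) (k : ℕ)
    (h : hilb (fun i => phi (f i)) (k + 1) = 0) :
    ∀ g ∈ homogeneousSubmodule (Fin (n + 1)) K (k + 1),
      ∃ g' ∈ homogeneousSubmodule (Fin (n + 1)) K k, g - X 0 * g' ∈ Ideal.span (Set.range f) := by
  have h1 : part (fun i => phi (f i)) (k + 1) = homogeneousSubmodule (Fin n) K (k + 1) := by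
    apply Submodule.eq_of_le_of_finrank_eq inf_le_right
    unfold hilb at h
    have h' : (finrank K ↥(homogeneousSubmodule (Fin n) K (k + 1)) : ℤ) -
      (finrank K ↥(part (fun i => phi (f i)) (k + 1)) : ℤ) = 0 := h
    omega
  intro g hg
  have h2 : phi g ∈ part (fun i => phi (f i)) (k + 1) := by
    rw [h1]; exact phi_mem hg
  obtain ⟨a, ha, hag⟩ := part_lift hf h2
  have h3 : phi (g - a) = 0 := by rw [map_sub, hag, sub_self]
  obtain ⟨g', hg', e⟩ := phi_ker (Submodule.sub_mem _ hg ha.2) h3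
  refine ⟨g', hg', ?_⟩
  rw [← e, sub_sub_cancel]
  exact ha.1

/-- a form of larger degree is in the ideal if all forms of degree `j` are -/
theorem all_of {f : Fin r → MvPolynomial (Fin n) K} {j : ℕ}
    (h : hilb f j = 0) {m : ℕ} (hm : j ≤ m) :
    ∀ g ∈ homogeneousSubmodule (Fin n) K m, g ∈ Ideal.span (Set.range f) := by
  have h1 : part f j = homogeneousSubmodule (Fin n) K j := by
    apply Submodule.eq_of_le_of_finrank_eq inf_le_right
    unfold hilb at h
    have h' : (finrank K ↥(homogeneousSubmodule (Fin n) K j) : ℤ) -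
      (finrank K ↥(part f j) : ℤ) = 0 := h
    omega
  induction m, hm using Nat.le_induction with
  | base =>
    intro g hg
    rw [← h1] at hg
    exact hg.1
  | succ m _ ih =>
    intro g hg
    have hgh : g.IsHomogeneous (m + 1) := hg
    rw [g.as_sum]
    refine Submodule.sum_mem _ fun v hv => ?_
    have hc : coeff v g ≠ 0 := mem_support_iff.1 hv
    have hdeg : v.degree = m + 1 := by
      have := hgh hc
      rw [Finsupp.degree_eq_weight_one]
      exact this
    obtain ⟨i, hi⟩ : ∃ i, v i ≠ 0 := by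
      by_contra hcon
      push Not at hcon
      have : v = 0 := Finsupp.ext hcon
      rw [this] at hdeg
      simp at hdeg
    have hle : Finsupp.single i 1 ≤ v := by
      rw [Finsupp.single_le_iff]; omega
    have e : monomial v (coeff v g) =
        X i * monomial (v - Finsupp.single i 1) (coeff v g) := by
      rw [X, monomial_mul, one_mul, add_tsub_cancel_of_le hle]
    rw [e]
    refine Ideal.mul_mem_left _ _ (ih _ ?_)
    apply isHomogeneous_monomial
    have h5 : (Finsupp.single i 1 + (v - Finsupp.single i 1)).degree = m + 1 := by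
      rw [add_tsub_cancel_of_le hle, hdeg]
    rw [map_add, Finsupp.degree_single] at h5
    omega

end Pool.Agent.TH206.WLP
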