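import Pool.Agent.TH206.WLP.Dim

/-!
Multiplication by a variable has maximal rank on quotients by generic forms.
-/

set_option autoImplicit false

namespace Pool.Agent.TH206.WLP

open MvPolynomial Module Pool.Agent.TH206.Fro

variable {n r : ℕ}

lemma co_rec (n : ℕ) (d : Fin r → ℕ) :
    ((PowerSeries.mk fun _ => (1 : ℤ)) ^ n * ∏ i : Fin r, (1 - PowerSeries.X ^ d i)) =
    ((PowerSeries.mk fun _ => (1 : ℤ)) ^ (n + 1) * ∏ i : Fin r, (1 - PowerSeries.X ^ d i)) -
    ((PowerSeries.mk fun _ => (1 : ℤ)) ^ (n + 1) * ∏ i : Fin r, (1 - PowerSeries.X ^ d i)) *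
      PowerSeries.X := by
  have hE : (PowerSeries.mk fun _ => (1 : ℤ)) * (1 - PowerSeries.X) = 1 :=
    PowerSeries.mk_one_mul_one_sub_eq_one ℤ
  generalize (PowerSeries.mk fun _ => (1 : ℤ)) = E at hE ⊢
  generalize (∏ i : Fin r, (1 - PowerSeries.X ^ d i) : PowerSeries ℤ) = Q
  have : E ^ (n + 1) * Q - E ^ (n + 1) * Q * PowerSeries.X =
      E ^ n * Q * (E * (1 - PowerSeries.X)) := by ring
  rw [this, hE, mul_one]

lemma co_succ (n : ℕ) (d : Fin r → ℕ) (k : ℕ) :
    co (n + 1) d (k + 1) = co (n + 1) d k + co n d (k + 1) := by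
  unfold co
  rw [co_rec n d, map_sub, PowerSeries.coeff_succ_mul_X]
  ring

lemma co_zero (n : ℕ) (d : Fin r → ℕ) : co (n + 1) d 0 = co n d 0 := by
  unfold co
  rw [co_rec n d, map_sub, PowerSeries.coeff_zero_mul_X, sub_zero]

lemma co_pos {n : ℕ} {d : Fin r → ℕ} {k : ℕ} (h : ∀ j ≤ k, 0 < co n d j) :
    ∀ j ≤ k, 0 < co (n + 1) d j := by
  intro j
  induction j with
  | zero => intro hj; rw [co_zero]; exact h 0 hj
  | succ j ih =>
    intro hj
    rw [co_succ]
    have := ih (by omega)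
    have := h (j + 1) hj
    omega

/-- the coefficients of the restrictions are among the coefficients of the forms -/
noncomputable def emb (d : Fin r → ℕ) : Io n d → Io (n + 1) d := fun s =>
  ⟨s.1, ⟨s.2.1.cons 0, by rw [degree_cons, zero_add]; exact s.2.2⟩⟩

lemma emb_inj (d : Fin r → ℕ) : Function.Injective (emb (n := n) d) := by
  rintro ⟨i, m, hm⟩ ⟨i', m', hm'⟩ h
  unfold emb at h
  rw [Sigma.mk.injEq] at h
  obtain ⟨h1, h2⟩ := h
  simp only at h1
  subst h1
  have h3 := congrArg Subtype.val (eq_of_heq h2)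
  simp only at h3
  have h4 : m = m' := by
    have := congrArg Finsupp.tail h3
    rwa [Finsupp.tail_cons, Finsupp.tail_cons] at this
  subst h4
  rfl

/-- Multiplication by `x_0` in degree `k` has maximal rank modulo the forms `f i`. -/
def MR {K : Type} [Field K] (f : Fin r → MvPolynomial (Fin (n + 1)) K) (k : ℕ) : Prop :=
  (∀ g : MvPolynomial (Fin (n + 1)) K, g.IsHomogeneous k → X 0 * g ∈ Ideal.span (Set.range f) →
      g ∈ Ideal.span (Set.range f)) ∨
  (∀ g : MvPolynomial (Fin (n + 1)) K, g.IsHomogeneous (k + 1) →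
      ∃ g' : MvPolynomial (Fin (n + 1)) K, g'.IsHomogeneous k ∧
        g - X 0 * g' ∈ Ideal.span (Set.range f))

theorem wlp (K : Type) [Field K] (n r D : ℕ) (d : Fin r → ℕ) (hn : 1 ≤ n)
    (hD : ∀ i, D < 2 * d i) (hc : ∀ i, d i ≤ D → Cond n (D - d i) (d i))
    (hc' : ∀ i, d i ≤ D → Cond (n + 1) (D - d i) (d i)) :
    ∃ P : MvPolynomial (Io (n + 1) d) K, P ≠ 0 ∧
      ∀ f : Fin r → MvPolynomial (Fin (n + 1)) K, (∀ i, (f i).IsHomogeneous (d i)) →
        MvPolynomial.eval (fun s : Io (n + 1) d => (f s.1).coeff s.2.1) P ≠ 0 →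
        (∀ k, k + 1 ≤ D → MR f k) ∧ ((∃ j ≤ D, co (n + 1) d j ≤ 0) → ∀ k, MR f k) := by
  obtain ⟨P, hP0, hP⟩ := final K n r D d hn hD hc
  obtain ⟨Q, hQ0, hQ⟩ := final K (n + 1) r D d (by omega) hD hc'
  refine ⟨Q * rename (emb d) P, mul_ne_zero hQ0 ?_, fun f hf hfP => ?_⟩
  · intro h
    exact hP0 (rename_injective _ (emb_inj d) (by rw [h, map_zero]))
  rw [map_mul] at hfP
  have hf1 := hQ f hf (left_ne_zero_of_mul hfP)
  have h1 : MvPolynomial.eval (fun s : Io n d => (phi (f s.1)).coeff s.2.1) P ≠ 0 := by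
    have h2 := right_ne_zero_of_mul hfP
    rw [eval_rename] at h2
    have h3 : (fun s : Io n d => (phi (f s.1)).coeff s.2.1) =
        (fun s : Io (n + 1) d => (f s.1).coeff s.2.1) ∘ emb d := by
      funext s
      rw [coeff_phi]
      rfl
    rw [h3]
    exact h2
  have hf2 := hP (fun i => phi (f i)) (fun i => phi_mem (hf i)) h1
  have ha : ∀ k, k + 1 ≤ D → MR f k := by
    intro k hk
    by_cases hpos : ∀ j ≤ k + 1, 0 < co n d j
    · left
      have hpos' := co_pos hpos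
      intro g hg hgI
      refine inj_of hf k ?_ g hg hgI
      rw [hf1 (k + 1) hk, hf1 k (by omega), hf2 (k + 1) hk]
      unfold fro
      rw [if_pos hpos', if_pos hpos, if_pos (fun j hj => hpos' j (by omega)), co_succ]
    · right
      intro g hg
      have h0 : hilb (fun i => phi (f i)) (k + 1) = 0 := by
        rw [hf2 (k + 1) hk]
        unfold fro
        rw [if_neg hpos]
      obtain ⟨g', hg', h⟩ := surj_of hf k h0 g hg
      exact ⟨g', hg', h⟩
  refine ⟨ha, ?_⟩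
  rintro ⟨j, hj, hj0⟩ k
  by_cases hk : k + 1 ≤ D
  · exact ha k hk
  · right
    intro g hg
    have h0 : hilb f j = 0 := by
      rw [hf1 j hj]
      unfold fro
      rw [if_neg]
      intro h
      have := h j le_rfl
      omega
    refine ⟨0, isHomogeneous_zero _ _ _, ?_⟩
    rw [mul_zero, sub_zero]
    exact all_of h0 (by omega) g hg

lemma co_nonpos {n r D : ℕ} (d : Fin r → ℕ) (hD : ∀ i, D < 2 * d i) {j : ℕ} (hj : j ≤ D)
    (h : (n + j).choose j ≤ ∑ i, (if d i ≤ j then (n + (j - d i)).choose (j - d i) else 0)) :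
    co (n + 1) d j ≤ 0 := by
  rw [co_thm (n + 1) r D d (by omega) hD j hj]
  simp only [card_Mon]
  have e : ∀ m, n + 1 + m - 1 = n + m := fun m => by omega
  simp only [e]
  have h' : (((n + j).choose j : ℕ) : ℤ) ≤
      ((∑ i, (if d i ≤ j then (n + (j - d i)).choose (j - d i) else 0) : ℕ) : ℤ) := by
    exact_mod_cast h
  push_cast at h'
  linarith

theorem wlp2 (K : Type) [Field K] (n r D : ℕ) (d : Fin r → ℕ) (hn : 1 ≤ n)
    (hD : ∀ i, D < 2 * d i) (hc : ∀ i, d i ≤ D → Cond n (D - d i) (d i))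
    (hc' : ∀ i, d i ≤ D → Cond (n + 1) (D - d i) (d i)) :
    ∃ P : MvPolynomial (Io (n + 1) d) K, P ≠ 0 ∧
      ∀ f : Fin r → MvPolynomial (Fin (n + 1)) K, (∀ i, (f i).IsHomogeneous (d i)) →
        MvPolynomial.eval (fun s : Io (n + 1) d => (f s.1).coeff s.2.1) P ≠ 0 →
        (∀ k, k + 1 ≤ D → MR f k) ∧
        ∀ j, j ≤ D →
          (n + j).choose j ≤
            ∑ i, (if d i ≤ j then (n + (j - d i)).choose (j - d i) else 0) →
          (∀ k, j ≤ k → ∀ g : MvPolynomial (Fin (n + 1)) K, g.IsHomogeneous k →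
            g ∈ Ideal.span (Set.range f)) ∧ ∀ k, MR f k := by
  obtain ⟨P, hP0, hP⟩ := wlp K n r D d hn hD hc hc'
  obtain ⟨Q, hQ0, hQ⟩ := final K (n + 1) r D d (by omega) hD hc'
  refine ⟨P * Q, mul_ne_zero hP0 hQ0, fun f hf hfP => ?_⟩
  rw [map_mul] at hfP
  have h1 := hP f hf (left_ne_zero_of_mul hfP)
  have h2 := hQ f hf (right_ne_zero_of_mul hfP)
  refine ⟨h1.1, fun j hj hle => ?_⟩
  have hco := co_nonpos d hD hj hle
  have h0 : hilb f j = 0 := by
    rw [h2 j hj]
    unfold fro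
    rw [if_neg]
    intro h
    have := h j le_rfl
    omega
  exact ⟨fun k hk g hg => all_of h0 hk g hg, h1.2 ⟨j, hj, hco⟩⟩

end Pool.Agent.TH206.WLP
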