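import Pool.Agent.TH206.WLP.Transfer
import Pool.Agent.TH176.RK.Fro2

/-!
The weak Lefschetz property for at least `3 ^ (n - 1)` generic forms in `n + 1` variables.
-/

set_option autoImplicit false

namespace Pool.Agent.TH206.WLP

open MvPolynomial Module Pool.Agent.TH206.Fro

theorem many (n : ℕ) (hn : 3 ≤ n) (K : Type) [Field K] [CharZero K] (r δ s : ℕ)
    (d : Fin r → ℕ) (ρ : ℝ) (hρ3 : 3 ≤ ρ) (hρ : ρ ^ (n - 1) = r) (hδ : 1 ≤ δ) (hs : 3 * s ≤ δ)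
    (hd : ∀ i, δ ≤ d i ∧ d i ≤ δ + s) :
    ∃ k₀ : ℕ, ∃ P : MvPolynomial (Io (n + 1) d) K, P ≠ 0 ∧
      ∀ f : Fin r → MvPolynomial (Fin (n + 1)) K, (∀ i, (f i).IsHomogeneous (d i)) →
        MvPolynomial.eval (fun s : Io (n + 1) d => (f s.1).coeff s.2.1) P ≠ 0 →
        ∀ k : ℕ,
          (ρ * (k + n - δ) + (n - 3) < k + 1 ∨
            ρ ^ (n - 2) * (k + 1) < ∑ i, ((k + 2 - d i : ℕ) : ℝ) ∨
            k + 1 < k₀ ∨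
            (k₀ : ℝ) + (n - 2 + s) + (2 * n - 5 + s) / (ρ - 1) < k + 1 ∨
            2 * (n - 1).factorial * (δ - 1 + ρ * s) ^ n ≤ (ρ - 1) ^ n * (δ : ℝ) ^ (n - 1)) →
          MR f k := by
  obtain ⟨j, rfl⟩ : ∃ j, n = j + 3 := ⟨n - 3, by omega⟩
  have e3 : j + 3 - 1 = j + 2 := rfl
  have e4 : j + 3 - 2 = j + 1 := rfl
  rw [e3] at hρ
  have hd1 : ∀ i, δ ≤ d i := fun i => (hd i).1
  have hd2 : ∀ i, d i ≤ δ + s := fun i => (hd i).2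
  have hd3 : ∀ i, 3 * d i ≤ 4 * δ := fun i => by have := hd2 i; omega
  obtain ⟨k₀, P, hP, hP2⟩ := Pool.Agent.TH176.RK.fro_final j K r δ s d ρ hρ3 hρ hδ hd1 (Or.inl hd3)
  have hr : 3 ^ (j + 3 - 1) ≤ r := by
    rw [e3]
    have h1 : (3 : ℝ) ^ (j + 2) ≤ ρ ^ (j + 2) := pow_le_pow_left₀ (by norm_num) hρ3 _
    rw [hρ] at h1
    exact_mod_cast h1
  obtain ⟨Q, hQ, hQ2⟩ := transfer_poly (K := K) (by omega : 1 ≤ j + 3) (δ := δ) (d := d) hd1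
    (co_crit3 (by omega) hδ hr hd1 hd3)
    {k : ℕ | (ρ * (k + j + 2 - δ) + j < k ∨
      ρ ^ (j + 1) * k < ∑ i, ((k + 1 - d i : ℕ) : ℝ) ∨
      ((∀ i, d i ≤ δ + s) ∧
        (k < k₀ ∨ (k₀ : ℝ) + (j + 1 + s) + (2 * j + 1 + s) / (ρ - 1) < k)) ∨
      ((∀ i, d i ≤ δ + s) ∧ 2 * (j + 2).factorial * (δ - 1 + ρ * s) ^ (j + 3) ≤
        (ρ - 1) ^ (j + 3) * (δ : ℝ) ^ (j + 2)))}
    ⟨P, hP, fun g hg hgP k hk => hP2 g hg hgP k hk⟩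
  refine ⟨k₀, Q, hQ, fun f hf hfQ k hk => hQ2 f hf hfQ k ?_⟩
  rw [Set.mem_setOf_eq]
  rw [e3, e4] at hk
  have d2 : ((j + 3 : ℕ) : ℝ) - 3 = j := by push_cast; ring
  have d3 : ((j + 3 : ℕ) : ℝ) - 2 + s = j + 1 + s := by push_cast; ring
  have d4 : 2 * ((j + 3 : ℕ) : ℝ) - 5 + s = 2 * j + 1 + s := by push_cast; ring
  have d5 : (k : ℝ) + ((j + 3 : ℕ) : ℝ) - δ = ((k + 1 : ℕ) : ℝ) + j + 2 - δ := by
    push_cast; ring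
  have d6 : (k : ℝ) + 1 = ((k + 1 : ℕ) : ℝ) := by push_cast; ring
  rw [d2, d3, d4, d5, d6] at hk
  rcases hk with h | h | h | h | h
  · exact Or.inl h
  · exact Or.inr (Or.inl h)
  · exact Or.inr (Or.inr (Or.inl ⟨hd2, Or.inl h⟩))
  · exact Or.inr (Or.inr (Or.inl ⟨hd2, Or.inr h⟩))
  · exact Or.inr (Or.inr (Or.inr ⟨hd2, h⟩))

end Pool.Agent.TH206.WLP
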