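import Pool.Agent.TH206.Fro.Final

/-!
Restriction of forms to a coordinate hyperplane.
-/

set_option autoImplicit false

namespace Pool.Agent.TH206.WLP

open MvPolynomial Module Pool.Agent.TH206.Fro

variable {K : Type} [Field K] {n : ℕ}

/-- restriction to the hyperplane `x_0 = 0` -/
noncomputable def phi : MvPolynomial (Fin (n + 1)) K →ₐ[K] MvPolynomial (Fin n) K :=
  ((Polynomial.aeval (0 : MvPolynomial (Fin n) K)).restrictScalars K).comp
    (finSuccEquiv K n).toAlgHom

lemma phi_eq (g : MvPolynomial (Fin (n + 1)) K) :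
    phi g = (finSuccEquiv K n g).coeff 0 := by
  rw [Polynomial.coeff_zero_eq_aeval_zero]
  rfl

lemma coeff_phi (m : Fin n →₀ ℕ) (g : MvPolynomial (Fin (n + 1)) K) :
    coeff m (phi g) = coeff (m.cons 0) g := by
  rw [phi_eq, finSuccEquiv_coeff_coeff]

lemma degree_cons (m : Fin n →₀ ℕ) (a : ℕ) : (m.cons a).degree = a + m.degree := by
  rw [Finsupp.degree_eq_sum, Finsupp.degree_eq_sum, Fin.sum_univ_succ]
  simp

lemma phi_hc (j : ℕ) (g : MvPolynomial (Fin (n + 1)) K) :
    phi (homogeneousComponent j g) = homogeneousComponent j (phi g) := by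
  classical
  ext m
  rw [coeff_phi, coeff_homogeneousComponent, coeff_homogeneousComponent, coeff_phi, degree_cons,
    zero_add]

lemma hc_self {σ : Type} {k : ℕ} {g : MvPolynomial σ K}
    (hg : g ∈ homogeneousSubmodule σ K k) : homogeneousComponent k g = g := by
  rw [homogeneousComponent_of_mem hg, if_pos rfl]

lemma hc_mem {σ : Type} (k : ℕ) (g : MvPolynomial σ K) :
    homogeneousComponent k g ∈ homogeneousSubmodule σ K k :=
  homogeneousComponent_isHomogeneous k g

lemma phi_mem {k : ℕ} {g : MvPolynomial (Fin (n + 1)) K}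
    (hg : g ∈ homogeneousSubmodule (Fin (n + 1)) K k) :
    phi g ∈ homogeneousSubmodule (Fin n) K k := by
  rw [← hc_self hg, phi_hc]
  exact hc_mem _ _

lemma phi_X_zero : phi (X 0 : MvPolynomial (Fin (n + 1)) K) = 0 := by
  rw [phi_eq, finSuccEquiv_X_zero, Polynomial.coeff_X_zero]

lemma phi_rename (p : MvPolynomial (Fin n) K) : phi (rename Fin.succ p) = p := by
  have h : (phi (K := K) (n := n)).comp (rename Fin.succ) = AlgHom.id K _ := by
    apply MvPolynomial.algHom_ext
    intro i
    rw [AlgHom.comp_apply, rename_X, phi_eq, finSuccEquiv_X_succ, Polynomial.coeff_C_zero]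
    rfl
  exact DFunLike.congr_fun h p

lemma phi_surj : Function.Surjective (phi (K := K) (n := n)) := fun p => ⟨_, phi_rename p⟩

lemma phi_ker {k : ℕ} {g : MvPolynomial (Fin (n + 1)) K}
    (hg : g ∈ homogeneousSubmodule (Fin (n + 1)) K (k + 1)) (h : phi g = 0) :
    ∃ h' ∈ homogeneousSubmodule (Fin (n + 1)) K k, g = X 0 * h' := by
  rw [phi_eq, ← Polynomial.X_dvd_iff] at h
  obtain ⟨q, hq⟩ := h
  have h1 : g = X 0 * (finSuccEquiv K n).symm q := by
    apply (finSuccEquiv K n).injective
    rw [map_mul, finSuccEquiv_X_zero, AlgEquiv.apply_symm_apply, hq]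
  refine ⟨homogeneousComponent k ((finSuccEquiv K n).symm q), hc_mem _ _, ?_⟩
  have h2 := hc_self hg
  rw [h1, mul_comm, hc_mul' (δ := 1) (isHomogeneous_X K 0), if_pos (by omega),
    Nat.add_sub_cancel] at h2
  rw [h1, mul_comm, ← h2, mul_comm]

/-! ideals generated by forms -/

variable {r : ℕ}

lemma hc_ideal {N : ℕ} {d : Fin r → ℕ} {f : Fin r → MvPolynomial (Fin N) K}
    (hf : ∀ i, (f i).IsHomogeneous (d i)) {a : MvPolynomial (Fin N) K}
    (ha : a ∈ Ideal.span (Set.range f)) (j : ℕ) :
    homogeneousComponent j a ∈ Ideal.span (Set.range f) := by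
  rw [Ideal.mem_span_range_iff_exists_fun] at ha
  obtain ⟨c, rfl⟩ := ha
  rw [map_sum]
  refine Submodule.sum_mem _ fun i _ => ?_
  rw [hc_mul' (hf i)]
  split_ifs
  · exact Ideal.mul_mem_left _ _ (Ideal.subset_span ⟨i, rfl⟩)
  · exact Submodule.zero_mem _

lemma map_ideal (f : Fin r → MvPolynomial (Fin (n + 1)) K) :
    Ideal.map (phi (K := K) (n := n)) (Ideal.span (Set.range f)) =
      Ideal.span (Set.range fun i => phi (f i)) := by
  rw [Ideal.map_span, ← Set.range_comp]
  rfl

end Pool.Agent.TH206.WLP
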