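import Pool.Agent.TH206.WLP.Transfer
import Pool.Agent.TH176.FB.Final3

/-!
The weak Lefschetz property for `t ^ (n - 1)` generic forms of equal degree in `n + 1` variables.
-/

set_option autoImplicit false

namespace Pool.Agent.TH206.WLP

open MvPolynomial Module Pool.Agent.TH206.Fro

theorem powers (K : Type) [Field K] [CharZero K] (n t d : ℕ)
    (h : (4 ≤ n ∧ n ^ 2 ≤ t) ∨ (n = 4 ∧ 2 ≤ t)) (hd : 1 ≤ d) :
    ∃ P : MvPolynomial (Io (n + 1) fun _ : Fin (t ^ (n - 1)) => d) K, P ≠ 0 ∧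
      ∀ f : Fin (t ^ (n - 1)) → MvPolynomial (Fin (n + 1)) K, (∀ i, (f i).IsHomogeneous d) →
        MvPolynomial.eval (fun s : Io (n + 1) fun _ : Fin (t ^ (n - 1)) => d =>
          (f s.1).coeff s.2.1) P ≠ 0 → ∀ k : ℕ, MR f k := by
  have hn : 4 ≤ n := by omega
  have ht : 2 ≤ t := by
    rcases h with h | h
    · have : 4 ^ 2 ≤ n ^ 2 := Nat.pow_le_pow_left h.1 2
      omega
    · exact h.2
  have key : ∃ P : MvPolynomial (Io n fun _ : Fin (t ^ (n - 1)) => d) K, P ≠ 0 ∧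
      ∀ g : Fin (t ^ (n - 1)) → MvPolynomial (Fin n) K, (∀ i, (g i).IsHomogeneous d) →
        MvPolynomial.eval (fun s : Io n fun _ : Fin (t ^ (n - 1)) => d =>
          (g s.1).coeff s.2.1) P ≠ 0 →
        ∀ k ∈ (Set.univ : Set ℕ), hilb g k = fro n (fun _ : Fin (t ^ (n - 1)) => d) k := by
    rcases h with h | h
    · obtain ⟨m, rfl⟩ : ∃ m, n = m + 2 := ⟨n - 2, by omega⟩
      obtain ⟨P, hP, hP2⟩ := Pool.Agent.TH176.FB.allN K m t d (by omega) h.2 hd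
      exact ⟨P, hP, fun g hg hgP k _ => hP2 g hg hgP k⟩
    · obtain ⟨h4, _⟩ := h
      subst h4
      obtain ⟨P, hP, hP2⟩ := Pool.Agent.TH176.FB.four K t d ht hd
      exact ⟨P, hP, fun g hg hgP k _ => hP2 g hg hgP k⟩
  have hr : 2 ^ (n - 1) ≤ t ^ (n - 1) := Nat.pow_le_pow_left ht _
  obtain ⟨P, hP, hP2⟩ := transfer_poly (K := K) (by omega : 1 ≤ n) (δ := d)
    (d := fun _ : Fin (t ^ (n - 1)) => d) (fun _ => le_rfl)
    (co_crit (by omega) hd hr) Set.univ key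
  exact ⟨P, hP, fun f hf hfP k => hP2 f hf hfP k (Set.mem_univ _)⟩

end Pool.Agent.TH206.WLP
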