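import Pool.Agent.TH206.WLP.Main

/-!
Fröberg's formula for the restrictions to a hyperplane in one degree gives the maximal rank of the
multiplication by the equation of the hyperplane in this degree.
-/

set_option autoImplicit false

namespace Pool.Agent.TH206.WLP

open MvPolynomial Module Pool.Agent.TH206.Fro

variable {K : Type} [Field K] {n r : ℕ}

lemma finrank_part_le {d : Fin r → ℕ} {f : Fin r → MvPolynomial (Fin n) K}
    (hf : ∀ i, (f i).IsHomogeneous (d i)) (k : ℕ) :
    finrank K ↥(part f k) ≤ Fintype.card (Ro n k d) := by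
  have h := hilb_thm n k r d K f hf
  change finrank K ↥(part f k) = _ at h
  rw [h]
  exact Matrix.rank_le_card_height _

lemma hilb_ge (hn : 1 ≤ n) {d : Fin r → ℕ} {f : Fin r → MvPolynomial (Fin n) K}
    (hf : ∀ i, (f i).IsHomogeneous (d i)) {k : ℕ} (hk : ∀ i, k < 2 * d i) :
    co n d k ≤ hilb f k := by
  rw [co_thm n r k d hn hk k le_rfl]
  have h := finrank_part_le hf k
  rw [card_Ro] at h
  have h' : ((finrank K ↥(part f k) : ℕ) : ℤ) ≤
      ((∑ i, (if d i ≤ k then (Mon n (k - d i)).card else 0) : ℕ) : ℤ) := by exact_mod_cast h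
  push_cast at h'
  unfold hilb
  rw [dim_thm]
  change _ ≤ _ - ((finrank K ↥(part f k) : ℕ) : ℤ)
  linarith

lemma hilb_iff (hn : 1 ≤ n) {d : Fin r → ℕ} {f : Fin r → MvPolynomial (Fin n) K}
    (hf : ∀ i, (f i).IsHomogeneous (d i)) {k : ℕ} (hk : ∀ i, k < 2 * d i) :
    hilb f k = co n d k ↔
      LinearIndependent K (fun p : Ro n k d => monomial p.2.1 (1 : K) * f p.1) := by
  rw [linearIndependent_iff_card_eq_finrank_span, co_thm n r k d hn hk k le_rfl]
  have h := span_inf_eq' (D := k) d f hf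
  have hc := card_Ro n k r d
  unfold hilb Set.finrank
  rw [dim_thm, h, hc]
  constructor
  · intro h1
    have h2 : ((∑ i, (if d i ≤ k then (Mon n (k - d i)).card else 0) : ℕ) : ℤ) =
        ((finrank K ↥(Submodule.span K (Set.range fun p : Ro n k d =>
          monomial p.2.1 (1 : K) * f p.1)) : ℕ) : ℤ) := by
      push_cast
      linarith
    exact_mod_cast h2
  · intro h1
    rw [← h1]
    push_cast
    rfl

/-- independence in a degree implies independence in the smaller degrees -/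
lemma hilb_down (hn : 1 ≤ n) {d : Fin r → ℕ} {f : Fin r → MvPolynomial (Fin n) K}
    (hf : ∀ i, (f i).IsHomogeneous (d i)) {D : ℕ} (hD : ∀ i, D < 2 * d i)
    (h : hilb f D = co n d D) : ∀ j ≤ D, hilb f j = co n d j := by
  intro j hj
  rw [hilb_iff hn hf hD] at h
  rw [hilb_iff hn hf (fun i => lt_of_le_of_lt hj (hD i))]
  let x : Fin n := ⟨0, hn⟩
  let e : Ro n j d → Ro n D d := fun p =>
    ⟨p.1, ⟨p.2.1 + Finsupp.single x (D - j), by
      have := p.2.2
      rw [map_add, Finsupp.degree_single]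
      omega⟩⟩
  have he : Function.Injective e := by
    rintro ⟨i, a, ha⟩ ⟨i', a', ha'⟩ h
    have h1 : i = i' := congrArg Sigma.fst h
    subst h1
    have h2 := eq_of_heq (Sigma.mk.inj_iff.1 h).2
    have h3 : a + Finsupp.single x (D - j) = a' + Finsupp.single x (D - j) :=
      congrArg Subtype.val h2
    have h4 : a = a' := add_right_cancel h3
    subst h4
    rfl
  have h5 := h.comp e he
  have h6 : ((fun p : Ro n D d => monomial p.2.1 (1 : K) * f p.1) ∘ e) =
      (LinearMap.mulLeft K (monomial (Finsupp.single x (D - j)) (1 : K))) ∘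
        (fun p : Ro n j d => monomial p.2.1 (1 : K) * f p.1) := by
    funext p
    show monomial (p.2.1 + Finsupp.single x (D - j)) (1 : K) * f p.1 =
      monomial (Finsupp.single x (D - j)) (1 : K) * (monomial p.2.1 (1 : K) * f p.1)
    rw [← mul_assoc, monomial_mul, one_mul, add_comm]
  rw [h6] at h5
  exact LinearIndependent.of_comp _ h5

lemma hilb_le {d : Fin r → ℕ} {f : Fin r → MvPolynomial (Fin (n + 1)) K}
    (hf : ∀ i, (f i).IsHomogeneous (d i)) (k : ℕ) :
    hilb f (k + 1) ≤ hilb f k + hilb (fun i => phi (f i)) (k + 1) := by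
  have h1 := dim_part hf k
  have h2 := dim_hom (K := K) (n := n) k
  have h3 : finrank K ↥(part f k) ≤ finrank K ↥(Jk f k) :=
    Submodule.finrank_mono (part_le_Jk f k)
  unfold hilb
  change (finrank K ↥(homogeneousSubmodule (Fin (n + 1)) K (k + 1)) : ℤ) -
      (finrank K ↥(part f (k + 1)) : ℤ) ≤
      (finrank K ↥(homogeneousSubmodule (Fin (n + 1)) K k) : ℤ) -
      (finrank K ↥(part f k) : ℤ) + ((finrank K ↥(homogeneousSubmodule (Fin n) K (k + 1)) : ℤ) -
      (finrank K ↥(part (fun i => phi (f i)) (k + 1)) : ℤ))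
  omega

lemma up_step (hn : 1 ≤ n) {d : Fin r → ℕ} {f : Fin r → MvPolynomial (Fin (n + 1)) K}
    (hf : ∀ i, (f i).IsHomogeneous (d i)) {D : ℕ} (hD : ∀ i, D < 2 * d i)
    (h : ∀ j ≤ D, hilb (fun i => phi (f i)) j = co n d j) :
    ∀ j ≤ D, hilb f j = co (n + 1) d j := by
  intro j
  induction j with
  | zero =>
    intro _
    refine le_antisymm ?_ (hilb_ge (by omega) hf (fun i => by have := hD i; omega))
    rw [co_thm (n + 1) r D d (by omega) hD 0 (Nat.zero_le _)]
    unfold hilb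
    rw [dim_thm, Finset.sum_eq_zero]
    · have : (0 : ℤ) ≤ (finrank K ↥(Submodule.restrictScalars K (Ideal.span (Set.range f)) ⊓
        homogeneousSubmodule (Fin (n + 1)) K 0) : ℤ) := by positivity
      linarith
    · intro i _
      rw [if_neg]
      have := hD i
      omega
  | succ j ih =>
    intro hj
    refine le_antisymm ?_ (hilb_ge (by omega) hf (fun i => by have := hD i; omega))
    have h1 := hilb_le hf j
    rw [ih (by omega), h (j + 1) hj] at h1
    rw [co_succ]
    exact h1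

lemma choose_two (m b : ℕ) : (m + (2 * b + 1)).choose m ≤ 2 ^ m * (m + b).choose m := by
  induction m with
  | zero => simp
  | succ m ih =>
    have h1 := Nat.add_one_mul_choose_eq (m + (2 * b + 1)) m
    have h2 := Nat.add_one_mul_choose_eq (m + b) m
    have h3 : (m + 1 + (2 * b + 1)).choose (m + 1) * (m + 1) ≤
        2 ^ (m + 1) * (m + 1 + b).choose (m + 1) * (m + 1) := by
      calc (m + 1 + (2 * b + 1)).choose (m + 1) * (m + 1)
          = (m + (2 * b + 1) + 1) * (m + (2 * b + 1)).choose m := by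
            rw [h1]; congr 2; omega
        _ ≤ (2 * (m + b + 1)) * (2 ^ m * (m + b).choose m) :=
            Nat.mul_le_mul (by omega) ih
        _ = 2 ^ (m + 1) * ((m + b + 1) * (m + b).choose m) := by ring
        _ = 2 ^ (m + 1) * ((m + b + 1).choose (m + 1) * (m + 1)) := by rw [h2]
        _ = _ := by rw [show m + b + 1 = m + 1 + b by omega]; ring
    exact Nat.le_of_mul_le_mul_right h3 (Nat.succ_pos m)

lemma co_crit (hn : 1 ≤ n) {δ : ℕ} (hδ : 1 ≤ δ) (hr : 2 ^ (n - 1) ≤ r) :
    co n (fun _ : Fin r => δ) (2 * δ - 1) ≤ 0 := by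
  rw [co_thm n r (2 * δ - 1) (fun _ => δ) hn (fun _ => by omega) _ le_rfl]
  simp only [Finset.sum_const, Finset.card_univ, Fintype.card_fin, nsmul_eq_mul]
  rw [if_pos (by omega), card_Mon, card_Mon]
  obtain ⟨m, rfl⟩ : ∃ m, n = m + 1 := ⟨n - 1, by omega⟩
  obtain ⟨b, rfl⟩ : ∃ b, δ = b + 1 := ⟨δ - 1, by omega⟩
  have e1 : m + 1 + (2 * (b + 1) - 1) - 1 = m + (2 * b + 1) := by omega
  have e2 : 2 * (b + 1) - 1 = 2 * b + 1 := by omega
  have e3 : 2 * b + 1 - (b + 1) = b := by omega
  have e4 : m + 1 + b - 1 = m + b := by omega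
  rw [e1, e2, e3, e4]
  have h := choose_two m b
  have h1 : 2 ^ m * (m + b).choose m ≤ r * (m + b).choose m := Nat.mul_le_mul_right _ hr
  have h2 : (m + (2 * b + 1)).choose (2 * b + 1) ≤ r * (m + b).choose b := by
    rw [← Nat.choose_symm_add, ← Nat.choose_symm_add (a := m) (b := b)]
    exact h.trans h1
  have h3 : (((m + (2 * b + 1)).choose (2 * b + 1) : ℕ) : ℤ) ≤ ((r * (m + b).choose b : ℕ) : ℤ) := by
    exact_mod_cast h2
  push_cast at h3
  linarith

lemma choose_three (m a b : ℕ) (h : a ≤ 3 * b + 2) :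
    (m + a).choose m ≤ 3 ^ m * (m + b).choose m := by
  induction m with
  | zero => simp
  | succ m ih =>
    have h1 := Nat.add_one_mul_choose_eq (m + a) m
    have h2 := Nat.add_one_mul_choose_eq (m + b) m
    have h3 : (m + 1 + a).choose (m + 1) * (m + 1) ≤
        3 ^ (m + 1) * (m + 1 + b).choose (m + 1) * (m + 1) := by
      calc (m + 1 + a).choose (m + 1) * (m + 1)
          = (m + a + 1) * (m + a).choose m := by
            rw [h1]; congr 2; omega
        _ ≤ (3 * (m + b + 1)) * (3 ^ m * (m + b).choose m) :=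
            Nat.mul_le_mul (by omega) ih
        _ = 3 ^ (m + 1) * ((m + b + 1) * (m + b).choose m) := by ring
        _ = 3 ^ (m + 1) * ((m + b + 1).choose (m + 1) * (m + 1)) := by rw [h2]
        _ = _ := by rw [show m + b + 1 = m + 1 + b by omega]; ring
    exact Nat.le_of_mul_le_mul_right h3 (Nat.succ_pos m)

lemma co_crit3 (hn : 1 ≤ n) {δ : ℕ} (hδ : 1 ≤ δ) (hr : 3 ^ (n - 1) ≤ r) {d : Fin r → ℕ}
    (hd : ∀ i, δ ≤ d i) (hd3 : ∀ i, 3 * d i ≤ 4 * δ) : co n d (2 * δ - 1) ≤ 0 := by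
  rw [co_thm n r (2 * δ - 1) d hn (fun i => by have := hd i; omega) _ le_rfl]
  have hc : ∀ a, (Mon n a).card = (n - 1 + a).choose (n - 1) := by
    intro a
    obtain ⟨m, rfl⟩ : ∃ m, n = m + 1 := ⟨n - 1, by omega⟩
    rw [card_Mon, show m + 1 + a - 1 = m + a by omega, show m + 1 - 1 = m by omega,
      Nat.choose_symm_add]
  have h1 : ∀ i, (Mon n (2 * δ - 1)).card ≤ 3 ^ (n - 1) *
      (if d i ≤ 2 * δ - 1 then (Mon n (2 * δ - 1 - d i)).card else 0) := by
    intro i
    have h2 := hd i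
    have h3 := hd3 i
    rw [if_pos (by omega), hc, hc]
    exact choose_three _ _ _ (by omega)
  have h2 : r * (Mon n (2 * δ - 1)).card ≤ 3 ^ (n - 1) *
      ∑ i, (if d i ≤ 2 * δ - 1 then (Mon n (2 * δ - 1 - d i)).card else 0) := by
    rw [Finset.mul_sum]
    calc r * (Mon n (2 * δ - 1)).card = ∑ _i : Fin r, (Mon n (2 * δ - 1)).card := by simp
      _ ≤ _ := Finset.sum_le_sum fun i _ => h1 i
  have h3 : 3 ^ (n - 1) * (Mon n (2 * δ - 1)).card ≤ 3 ^ (n - 1) *
      ∑ i, (if d i ≤ 2 * δ - 1 then (Mon n (2 * δ - 1 - d i)).card else 0) :=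
    (Nat.mul_le_mul_right _ hr).trans h2
  have h4 := Nat.le_of_mul_le_mul_left h3 (by positivity)
  have h5 : (((Mon n (2 * δ - 1)).card : ℕ) : ℤ) ≤
      ((∑ i, (if d i ≤ 2 * δ - 1 then (Mon n (2 * δ - 1 - d i)).card else 0) : ℕ) : ℤ) := by
    exact_mod_cast h4
  push_cast at h5
  linarith

/-- the transfer -/
theorem transfer (hn : 1 ≤ n) {δ : ℕ} {d : Fin r → ℕ} (hd : ∀ i, δ ≤ d i)
    (hcrit : co n d (2 * δ - 1) ≤ 0)
    {f : Fin r → MvPolynomial (Fin (n + 1)) K} (hf : ∀ i, (f i).IsHomogeneous (d i)) {k : ℕ}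
    (h : hilb (fun i => phi (f i)) (k + 1) = fro n d (k + 1)) : MR f k := by
  by_cases hpos : ∀ j ≤ k + 1, 0 < co n d j
  · left
    have hk : k + 1 < 2 * δ - 1 := by
      by_contra hcon
      have h1 := hpos (2 * δ - 1) (by omega)
      omega
    have hD : ∀ i, k + 1 < 2 * d i := fun i => by have := hd i; omega
    have h1 : hilb (fun i => phi (f i)) (k + 1) = co n d (k + 1) := by
      rw [h]; unfold fro; rw [if_pos hpos]
    have h2 := hilb_down hn (fun i => phi_mem (hf i)) hD h1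
    have h3 := up_step hn hf (D := k + 1) hD h2
    intro g hg hgI
    refine inj_of hf k ?_ g hg hgI
    rw [h3 (k + 1) le_rfl, h3 k (by omega), h2 (k + 1) le_rfl, co_succ]
  · right
    intro g hg
    have h0 : hilb (fun i => phi (f i)) (k + 1) = 0 := by
      rw [h]
      unfold fro
      rw [if_neg hpos]
    obtain ⟨g', hg', h⟩ := surj_of hf k h0 g hg
    exact ⟨g', hg', h⟩

theorem transfer_poly (hn : 1 ≤ n) {δ : ℕ} {d : Fin r → ℕ} (hd : ∀ i, δ ≤ d i)
    (hcrit : co n d (2 * δ - 1) ≤ 0) (T : Set ℕ)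
    (h : ∃ P : MvPolynomial (Io n d) K, P ≠ 0 ∧
      ∀ g : Fin r → MvPolynomial (Fin n) K, (∀ i, (g i).IsHomogeneous (d i)) →
        eval (fun s : Io n d => (g s.1).coeff s.2.1) P ≠ 0 →
        ∀ k ∈ T, hilb g k = fro n d k) :
    ∃ P : MvPolynomial (Io (n + 1) d) K, P ≠ 0 ∧
      ∀ f : Fin r → MvPolynomial (Fin (n + 1)) K, (∀ i, (f i).IsHomogeneous (d i)) →
        eval (fun s : Io (n + 1) d => (f s.1).coeff s.2.1) P ≠ 0 →
        ∀ k, k + 1 ∈ T → MR f k := by
  obtain ⟨P, hP0, hP⟩ := h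
  refine ⟨rename (emb d) P, ?_, fun f hf hfP k hk => ?_⟩
  · intro h
    exact hP0 (rename_injective _ (emb_inj d) (by rw [h, map_zero]))
  have h1 : MvPolynomial.eval (fun s : Io n d => (phi (f s.1)).coeff s.2.1) P ≠ 0 := by
    rw [eval_rename] at hfP
    have h3 : (fun s : Io n d => (phi (f s.1)).coeff s.2.1) =
        (fun s : Io (n + 1) d => (f s.1).coeff s.2.1) ∘ emb d := by
      funext s
      rw [coeff_phi]
      rfl
    rw [h3]
    exact hfP
  exact transfer hn hd hcrit hf (hP (fun i => phi (f i)) (fun i => phi_mem (hf i)) h1 (k + 1) hk)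

end Pool.Agent.TH206.WLP
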